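import Pool.Agent.MVS.Stmts

noncomputable section

open scoped ContDiff Topology RealInnerProductSpace
open Set MeasureTheory

namespace Pool.Agent.MVS.H26

open Pool.Agent.RF Pool.Agent.MVS

theorem coi (hA : CoaStatement) (hB : CobStatement) : CoiStatement := by
  intro G κ a b F hS hF z₁ z₂ h1 h2 h3 h4 h5
  by_contra hne
  obtain ⟨w₁, w₂, g1, g2, g3, g4, g5, g6, g7, g8⟩ :=
    hA G κ a b F hS hF ⟨z₁, z₂, h1, h2, h3, h4, h5, hne⟩
  exact hB G κ a b F hS hF w₁ w₂ g1 g2 g3 g4 g5 g6 g7 g8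

/-- slab facts -/
theorem slab_subset (ι : Type) [Fintype ι] : slab ι ⊆ Om ι := by
  intro x hx h0
  have : (1 : ℝ) < ‖x‖ := hx.1
  rw [h0, norm_zero] at this
  linarith

theorem slab_subset_closed (ι : Type) [Fintype ι] :
    slab ι ⊆ Metric.closedBall (0 : E ι) (Real.exp 1) \ Metric.ball 0 1 := by
  intro x hx
  refine ⟨by simpa using hx.2.le, ?_⟩
  simp only [Metric.mem_ball, dist_zero_right, not_lt]
  exact hx.1.le

theorem isOpen_slab (ι : Type) [Fintype ι] : IsOpen (slab ι) :=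
  (isOpen_lt continuous_const continuous_norm).inter (isOpen_lt continuous_norm continuous_const)

theorem integrableOn_slab (ι : Type) [Fintype ι] {f : E ι → ℝ} (hf : ContinuousOn f (Om ι)) :
    IntegrableOn f (slab ι) := by
  have hK : IsCompact (Metric.closedBall (0 : E ι) (Real.exp 1) \ Metric.ball 0 1) :=
    (isCompact_closedBall _ _).diff Metric.isOpen_ball
  have hKO : Metric.closedBall (0 : E ι) (Real.exp 1) \ Metric.ball 0 1 ⊆ Om ι := by
    intro x hx h0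
    apply hx.2
    rw [h0]
    simp
  exact ((hf.mono hKO).integrableOn_compact hK).mono_set (slab_subset_closed ι)

theorem gb2 (hS : SdfStatement) (hF : GbfStatement) (hW : GbwStatement) (hC : GbcStatement)
    (hI : GbiStatement) : Gb2Statement := by
  intro h hh hs
  obtain ⟨A, hA⟩ := hF h hh
  obtain ⟨om, o1, o2, o3, o4⟩ := hW h hh A hA
  obtain ⟨α, a1, a2, a3⟩ := hC h hh hs A hA om o1 o2 o3 o4
  obtain ⟨i1, i2⟩ := hI.1 α a1 a2
  obtain ⟨j1, j2⟩ := hI.2
  have hc : ContinuousOn (fun x => sd (h x)) (Om (Fin 3)) :=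
    (hS (Fin 3)).2.2.2 h (Om (Fin 3)) hh.metric
  have hint : IntegrableOn (fun x => sd (h x)) (slab (Fin 3)) := integrableOn_slab _ hc
  have key : ∀ x ∈ slab (Fin 3), ‖x‖⁻¹ ^ 3 - xcurl α x / ‖x‖ ^ 2 ≤ sd (h x) := by
    intro x hx
    have hx0 : 0 < ‖x‖ := lt_trans one_pos hx.1
    have h3 := a3 x (slab_subset _ hx)
    have hp : 0 < ‖x‖ ^ 2 := by positivity
    have e : ‖x‖⁻¹ ^ 3 - xcurl α x / ‖x‖ ^ 2 = (‖x‖⁻¹ - xcurl α x) / ‖x‖ ^ 2 := by
      field_simp
    rw [e, div_le_iff₀ hp]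
    linarith
  calc 4 * Real.pi = ∫ x in slab (Fin 3), (‖x‖⁻¹ ^ 3 - xcurl α x / ‖x‖ ^ 2) := by
        rw [integral_sub j1 i1, i2, j2]; ring
    _ ≤ ∫ x in slab (Fin 3), sd (h x) :=
        setIntegral_mono_on (j1.sub i1) hint (isOpen_slab _).measurableSet key

end Pool.Agent.MVS.H26
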