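import Pool.Agent.MVS.Stmts
import Pool.Agent.Helper38_MVS.RND
import Pool.Agent.Helper9_RF.Sym

noncomputable section

open scoped ContDiff Topology RealInnerProductSpace
set_option maxSynthPendingDepth 3
open Set MeasureTheory

namespace Pool.Agent.MVS.H26

open Pool.Agent.RF Pool.Agent.SecondKind Pool.Agent.MinVolSphere

theorem christoffel_congr {n : ℕ} {h h' : Coord n} {U : Set (Fin n → ℝ)} (hU : IsOpen U)
    (hh : ∀ z ∈ U, h z = h' z) {z : Fin n → ℝ} (hz : z ∈ U) (k i j : Fin n) :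
    christoffel h k i j z = christoffel h' k i j z := by
  unfold christoffel
  refine Finset.sum_congr rfl fun l _ => ?_
  have p : ∀ k i j, pd k (fun z => h z i j) z = pd k (fun z => h' z i j) z := fun k i j =>
    pd_congr k (by filter_upwards [hU.mem_nhds hz] with w hw; rw [hh w hw])
  rw [p, p, p]
  unfold inv
  rw [hh z hz]

theorem riemV_congr {n : ℕ} {h h' : Coord n} {U : Set (Fin n → ℝ)} (hU : IsOpen U)
    (hh : ∀ z ∈ U, h z = h' z) {y : Fin n → ℝ} (hy : y ∈ U) (a b c d : Fin n → ℝ) :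
    riemV h y a b c d = riemV h' y a b c d := by
  have c2 : ∀ i j k m, curv h i j k m y = curv h' i j k m y := by
    intro i j k m
    unfold curv
    have p : ∀ l k i j, pd l (christoffel h k i j) y = pd l (christoffel h' k i j) y :=
      fun l k i j => pd_congr l (by
        filter_upwards [hU.mem_nhds hy] with w hw
        exact christoffel_congr hU hh hw k i j)
    rw [p, p]
    congr 1
    refine Finset.sum_congr rfl fun q _ => ?_
    rw [christoffel_congr hU hh hy, christoffel_congr hU hh hy, christoffel_congr hU hh hy,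
      christoffel_congr hU hh hy]
  unfold riemV riem4
  refine Finset.sum_congr rfl fun p _ => Finset.sum_congr rfl fun q _ =>
    Finset.sum_congr rfl fun r _ => Finset.sum_congr rfl fun s _ => ?_
  congr 1
  refine Finset.sum_congr rfl fun m _ => ?_
  rw [c2, hh y hy]

theorem tangent_of {G : E5 → Bil E5} {U : Set (Fin 4 → ℝ)} {ψ : (Fin 4 → ℝ) → Fin 5 → ℝ}
    (hψ : IsParam U ψ) {y : Fin 4 → ℝ} (hy : y ∈ U) (v : Fin 4 → ℝ) :
    Tangent (ψ y) (fderiv ℝ ψ y v) := by
  refine ⟨hψ.sphere y hy, ?_⟩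
  have hx : (eqE 4).symm y ∈ eqE 4 ⁻¹' U := mem_pre hy
  have h := H5.psi_orth (IsParam.open' hψ) (IsParam.smooth' H38.sg hψ) (IsParam.norm' H38.sg hψ) hx
    ((eqE 4).symm v)
  rw [fderiv_psE] at h
  unfold psE at h
  rw [ContinuousLinearEquiv.apply_symm_apply, ContinuousLinearEquiv.apply_symm_apply,
    inner_Lr] at h
  exact h

theorem sec_tan (par : ParStatement) {g : Form 4} {G : E5 → Bil E5} (hG : IsCyl G)
    (hGg : ∀ x v w : Fin 5 → ℝ, Tangent x v → Tangent x w → G (vc x) (vc v) (vc w) = g x v w)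
    (hs : SecLeOne g) {x : E5} (hx1 : ‖x‖ = 1) {v w : E5} (hv : ⟪x, v⟫ = (0 : ℝ))
    (hw : ⟪x, w⟫ = (0 : ℝ)) :
    G x (riem G x v w w) v ≤ G x v v * G x w w - G x v w ^ 2 := by
  have hsum : ∑ i, x i ^ 2 = 1 := by
    rw [← EuclideanSpace.real_norm_sq_eq, hx1]; norm_num
  obtain ⟨U, ψ, y, -, -, hψ, hy, hyx, -, -, -, -, hsurj⟩ := par (fun i => x i) hsum
  have inn : ∀ u : E5, ⟪x, u⟫ = ∑ i, x i * u i := fun u => by
    rw [PiLp.inner_apply]
    exact Finset.sum_congr rfl fun i _ => by simp [mul_comm]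
  obtain ⟨a, ha⟩ := hsurj y hy (fun i => v i) (by rw [hyx, ← inn]; exact hv)
  obtain ⟨c, hc⟩ := hsurj y hy (fun i => w i) (by rw [hyx, ← inn]; exact hw)
  obtain ⟨hM, hS⟩ := H5.slice_star chrStatement (ι := Fin 5) (κ := Fin 4) (by simp)
    hG (IsParam.open' hψ) (IsParam.smooth' H38.sg hψ) (IsParam.norm' H38.sg hψ)
    (IsParam.inj' H38.sg hψ)
  have hcomp : ∀ z ∈ U, comp g ψ z = mat (pullb G (psE H38.sg ψ)) z := by
    intro z hz
    rw [← comp_toForm]
    funext i j
    unfold comp toForm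
    exact (hGg _ _ _ (tangent_of (G := G) hψ hz _) (tangent_of (G := G) hψ hz _)).symm
  have hxm : (eqE 4).symm y ∈ eqE 4 ⁻¹' U := mem_pre hy
  have hyx' : eqE 4 ((eqE 4).symm y) = y := ContinuousLinearEquiv.apply_symm_apply _ _
  have hpx : psE H38.sg ψ ((eqE 4).symm y) = x := by
    unfold psE
    rw [hyx', hyx]
    rfl
  have hDa : fderiv ℝ (psE H38.sg ψ) ((eqE 4).symm y) (vec a) = v := by
    rw [fderiv_psE, hyx']
    unfold vec
    rw [ContinuousLinearEquiv.apply_symm_apply, ha]
    rfl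
  have hDc : fderiv ℝ (psE H38.sg ψ) ((eqE 4).symm y) (vec c) = w := by
    rw [fderiv_psE, hyx']
    unfold vec
    rw [ContinuousLinearEquiv.apply_symm_apply, hc]
    rfl
  have key := hs U ψ hψ y hy a c
  rw [riemV_congr hψ.isOpen hcomp hy] at key
  have hA : ∀ u v : Fin 4 → ℝ, ∑ p, ∑ q, u p * v q * comp g ψ y p q =
      pullb G (psE H38.sg ψ) ((eqE 4).symm y) (vec u) (vec v) := by
    intro u v
    have h1 := bil_vec (b := pullb G (psE H38.sg ψ)) ((eqE 4).symm y) u v
    rw [hyx', ← hcomp y hy] at h1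
    exact h1.symm
  unfold area2 at key
  rw [hA, hA, hA] at key
  have hr : riemV (mat (pullb G (psE H38.sg ψ))) y a c c a =
      G x (riem G x v w w) v := by
    conv_lhs => rw [← hyx']
    rw [riemV_mat hM hxm, pullb_apply]
    have hn := H5.nat chrStatement (Fin 5) (Fin 4) _ G (psE H38.sg ψ) _ (Om (Fin 5)) hM
      hG.metric (IsParam.smooth' H38.sg hψ) (IsParam.maps' H38.sg hψ) hS _ hxm
      (vec a) (vec c) (vec c)
    rw [hn, hDa, hDc, hpx]
  rw [hr] at key
  simp only [pullb_apply, hDa, hDc, hpx] at key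
  exact key

theorem br2 (par : ParStatement) : Br2Statement := by
  intro g G hg hG hGg hs
  have hC := chrStatement
  -- unit vectors
  have unit : ∀ x : E5, ‖x‖ = 1 → ∀ v w : E5,
      G x (riem G x v w w) v ≤ G x v v * G x w w - G x v w ^ 2 := by
    intro x hx1 v w
    have hx : x ∈ Om (Fin 5) := by
      rintro rfl
      simp at hx1
    have hM := hG.metric
    obtain ⟨-, r1, r2, -⟩ := H5.cyl hC (Fin 5) G hG x hx
    have r3 : ∀ u z, riem G x u x z = 0 := fun u z => by
      rw [H5.riem_antisymm hC hM hx, r1, neg_zero]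
    set l := ⟪x, v⟫ with hl
    set m := ⟪x, w⟫ with hm
    set v' := v - l • x with hv'
    set w' := w - m • x with hw'
    have hxx : ⟪x, x⟫ = (1 : ℝ) := by rw [real_inner_self_eq_norm_sq, hx1]; norm_num
    have hv0 : ⟪x, v'⟫ = (0 : ℝ) := by rw [hv', inner_sub_right, inner_smul_right, hxx, hl]; ring
    have hw0 : ⟪x, w'⟫ = (0 : ℝ) := by rw [hw', inner_sub_right, inner_smul_right, hxx, hm]; ring
    have ev : v = v' + l • x := by rw [hv']; abel
    have ew : w = w' + m • x := by rw [hw']; abel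
    have base := sec_tan par hG hGg hs hx1 hv0 hw0
    have hR : riem G x v w w = riem G x v' w' w' := by
      rw [ev, ew, H5.riem_add1 hC hM hx, H5.riem_smul1 hC hM hx, r1, smul_zero, add_zero,
        H5.riem_add2 hC hM hx, H5.riem_smul2 hC hM hx, r3, smul_zero, add_zero,
        H5.riem_add3 hC hM hx, H5.riem_smul3 hC hM hx, r2, smul_zero, add_zero]
    have rad : ∀ u, G x x u = ⟪x, u⟫ := fun u => by
      rw [hG.radial x hx, hx1]; norm_num
    have rad' : ∀ u, G x u x = ⟪x, u⟫ := fun u => by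
      rw [hM.symm x hx, rad]
    have hRx : G x (riem G x v' w' w') x = 0 := by
      have hF := H9.chrFacts hC hM
      rw [H9.metric_skew hF hM hx, r2, map_zero]
      simp
    have c1 : G x v v = G x v' v' + l ^ 2 := by
      rw [ev]
      simp only [map_add, map_smul, _root_.add_apply, _root_.smul_apply, smul_eq_mul, rad, rad', hv0,
        hxx]
      ring
    have c2 : G x w w = G x w' w' + m ^ 2 := by
      rw [ew]
      simp only [map_add, map_smul, _root_.add_apply, _root_.smul_apply, smul_eq_mul, rad, rad', hw0,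
        hxx]
      ring
    have c3 : G x v w = G x v' w' + l * m := by
      rw [ev, ew]
      simp only [map_add, map_smul, _root_.add_apply, _root_.smul_apply, smul_eq_mul, rad, rad', hv0, hw0,
        hxx]
      ring
    have c4 : G x (riem G x v w w) v = G x (riem G x v' w' w') v' := by
      rw [hR]
      conv_lhs => rw [ev]
      rw [map_add, map_smul, hRx]
      simp
    have c5 : 0 ≤ G x (m • v' - l • w') (m • v' - l • w') := by
      by_cases h0 : m • v' - l • w' = 0
      · rw [h0]; simp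
      · exact (hM.pos x hx _ h0).le
    have c6 : G x (m • v' - l • w') (m • v' - l • w') =
        m ^ 2 * G x v' v' - 2 * l * m * G x v' w' + l ^ 2 * G x w' w' := by
      simp only [map_sub, map_smul, _root_.sub_apply, _root_.smul_apply, smul_eq_mul]
      rw [hM.symm x hx w' v']
      ring
    rw [c4, c1, c2, c3]
    rw [c6] at c5
    nlinarith [base, c5]
  intro x hx v w
  have hn : 0 < ‖x‖ := norm_pos_iff.2 hx
  set ξ := ‖x‖⁻¹ • x with hξ
  have hξ1 : ‖ξ‖ = 1 := by
    rw [hξ, norm_smul, norm_inv, norm_norm]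
    exact inv_mul_cancel₀ hn.ne'
  have hξ0 : ξ ∈ Om (Fin 5) := by
    intro h0
    rw [h0, norm_zero] at hξ1
    exact zero_ne_one hξ1
  have hx2 : x = ‖x‖ • ξ := by
    rw [hξ, smul_smul, mul_inv_cancel₀ hn.ne', one_smul]
  have e1 : G x = (‖x‖ ^ 2)⁻¹ • G ξ := by
    conv_lhs => rw [hx2]
    exact hG.homog _ hn _ hξ0
  have e2 : riem G x v w w = (‖x‖ ^ 2)⁻¹ • riem G ξ v w w := by
    conv_lhs => rw [hx2]
    exact H5.cyl_riem_hom hC hG hξ0 hn v w w
  have u1 := unit ξ hξ1 v w
  rw [e2, e1]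
  simp only [map_smul, _root_.smul_apply, smul_eq_mul]
  have h4 : 0 ≤ (‖x‖ ^ 2)⁻¹ * (‖x‖ ^ 2)⁻¹ := by positivity
  nlinarith [mul_le_mul_of_nonneg_left u1 h4]

end Pool.Agent.MVS.H26
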