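import Pool.Agent.MVS.Stmts

noncomputable section

open scoped ContDiff Topology RealInnerProductSpace
open Set MeasureTheory

namespace Pool.Agent.MVS.H26

open Pool.Agent.RF Pool.Agent.MVS Pool.Agent.SecondKind Pool.Agent.MinVolSphere

theorem fin (hM : MaiStatement) (h1 : Br1Statement) (h2 : Br2Statement) (h3 : Br3Statement)
    (h4 : Br4Statement) (hR : RndStatement) : FinStatement := by
  intro a b hab
  have main : ∀ g : Form 4, IsMetric g → SecLeOne g → Invariant a b g →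
      8 * Real.pi ^ 2 / 3 ≤ vol g := by
    intro g hg hs hi
    obtain ⟨G, hG, hGg⟩ := h1 g hg
    have hsec := h2 g G hg hG hGg hs
    have hinv := h4 g G a b hg hG hGg hi
    rw [← h3 g G hg hG hGg]
    rcases eq_or_ne a 0 with ha | ha
    · have hb : b ≠ 0 := by
        rcases hab with h | h
        · exact absurd ha h
        · exact h
      exact hM G {2, 3} a b ⟨hG, hsec, hinv, Or.inr (Or.inr ⟨rfl, ha, hb⟩)⟩
    · rcases eq_or_ne b 0 with hb | hb
      · exact hM G {0, 1} a b ⟨hG, hsec, hinv, Or.inr (Or.inl ⟨rfl, ha, hb⟩)⟩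
      · exact hM G {0, 1, 2, 3} a b ⟨hG, hsec, hinv, Or.inl ⟨rfl, ha, hb⟩⟩
  refine ⟨main, ?_⟩
  have hA : ∀ g : Form 4, AbsSecLeOne g → SecLeOne g := fun g hg U ψ hψ y hy p q =>
    (le_abs_self _).trans (hg U ψ hψ y hy p q)
  obtain ⟨r1, r2, r3, r4⟩ := hR
  apply le_antisymm
  · apply csInf_le
    · refine ⟨8 * Real.pi ^ 2 / 3, ?_⟩
      rintro V ⟨g, g1, g2, g3, rfl⟩
      exact main g g1 (hA g g2) g3
    · exact ⟨_, r1, r2, r3 a b, r4⟩
  · apply le_csInf
    · exact ⟨_, _, r1, r2, r3 a b, r4⟩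
    · rintro V ⟨g, g1, g2, g3, rfl⟩
      exact main g g1 (hA g g2) g3

end Pool.Agent.MVS.H26
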