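import Pool.Agent.Helper26_MVS.INB

noncomputable section

open scoped ContDiff Topology RealInnerProductSpace
open Set MeasureTheory

namespace Pool.Agent.MVS.H26

open Pool.Agent.RF Pool.Agent.MVS

theorem jn_apply {ι1 ι2 : Type} [Fintype ι1] [Fintype ι2] (e : ι1 ⊕ ι2 ≃ Fin 5) (u : E ι1)
    (v : E ι2) (s : ι1 ⊕ ι2) :
    (jn e (u, v)) (e s) = Sum.elim (fun j => u j) (fun j => v j) s := by
  simp [jn]

theorem exists_e (κ : Finset (Fin 5)) (hκ : κ = {0, 1} ∨ κ = {2, 3}) :
    ∃ e : Fin 3 ⊕ Fin 2 ≃ Fin 5, Cmp e κ ∧ ∀ u : E3, inc κ u = jn e (u, 0) := by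
  rcases hκ with rfl | rfl
  · obtain ⟨e, he⟩ : ∃ e : Fin 3 ⊕ Fin 2 ≃ Fin 5, ∀ s, e s = Sum.elim ![2, 3, 4] ![0, 1] s :=
      ⟨Equiv.ofBijective (Sum.elim ![2, 3, 4] ![0, 1]) (by decide), fun s => rfl⟩
    refine ⟨e, ⟨fun j => ?_, fun j => ?_⟩, ?_⟩
    · rw [he]; revert j; decide
    · rw [he]; revert j; decide
    intro u
    ext i
    obtain ⟨s, rfl⟩ := e.surjective i
    rw [jn_apply, he]
    rcases s with j | j <;> fin_cases j <;> simp [inc, eb]
  · obtain ⟨e, he⟩ : ∃ e : Fin 3 ⊕ Fin 2 ≃ Fin 5, ∀ s, e s = Sum.elim ![0, 1, 4] ![2, 3] s :=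
      ⟨Equiv.ofBijective (Sum.elim ![0, 1, 4] ![2, 3]) (by decide), fun s => rfl⟩
    have hne : ({2, 3} : Finset (Fin 5)) ≠ {0, 1} := by decide
    refine ⟨e, ⟨fun j => ?_, fun j => ?_⟩, ?_⟩
    · rw [he]; revert j; decide
    · rw [he]; revert j; decide
    intro u
    ext i
    obtain ⟨s, rfl⟩ := e.surjective i
    rw [jn_apply, he]
    rcases s with j | j <;> fin_cases j <;> simp [inc, eb, hne]

theorem in2 (eqv : EqvStatement) (pol : PolStatement) : In2Statement := by
  intro G κ a b F hκ hS hN hint hlow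
  obtain ⟨e, he, hinc⟩ := exists_e κ hκ
  have mA : MeasurableSet (slab (Fin 3)) :=
    ((isOpen_lt continuous_const continuous_norm).inter
      (isOpen_lt continuous_norm continuous_const)).measurableSet
  have mB : MeasurableSet {v : E (Fin 2) | ‖v‖ < Real.pi / 2} :=
    (isOpen_lt continuous_norm continuous_const).measurableSet
  have hle := split_le e (fun z => Dz G F z) (slab (Fin 3)) {v : E (Fin 2) | ‖v‖ < Real.pi / 2}
    _ (pre_W he) mA mB (fun u => sd (pullb G (inc κ) u))
    (fun v => Real.sin ‖v‖ / ‖v‖ * Real.cos ‖v‖ ^ 2) hint (fun z => Real.sqrt_nonneg _) pol.2.1 ?_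
  · rw [pol.2.2] at hle
    rw [mul_comm]
    exact hle
  · intro u hu
    have hu0 : u ≠ 0 := by
      rintro rfl
      have := hu.1
      rw [norm_zero] at this
      linarith
    have h0 : ∀ᵐ v : E (Fin 2), v ≠ 0 := compl_mem_ae_iff.2 (measure_singleton 0)
    filter_upwards [h0] with v hv hvB
    have hσP : pP κ (jn e (u, 0)) = 0 := by
      rw [pP_jn he]
      ext i
      obtain ⟨s, rfl⟩ := e.surjective i
      cases s <;> simp [jn]
    have hσ0 : jn e (u, 0) ≠ 0 := by
      rw [← norm_ne_zero_iff, norm_jn_left]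
      exact norm_ne_zero_iff.2 hu0
    have hyN : pN κ (jn e (0, v)) = 0 := by
      rw [pN_jn he]
      ext i
      obtain ⟨s, rfl⟩ := e.surjective i
      cases s <;> simp [jn]
    have hy := norm_jn_right e v
    have key := hlow (jn e (u, 0)) (jn e (0, v)) hσP hσ0 hyN
      (by rw [hy]; exact norm_pos_iff.2 hv) (by rw [hy]; exact hvB)
    rw [hy, ← jn_add, dz_det eqv hS hN he hσP hσ0] at key
    have hsd : sd (pullb G (inc κ) u) = Real.sqrt (Matrix.of fun j k : Fin 3 =>
        G (jn e (u, 0)) (eb (e (Sum.inl j))) (eb (e (Sum.inl k)))).det := by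
      unfold sd gm
      have hb : ∀ j : Fin 3, inc κ (eb j) = eb (e (Sum.inl j)) := by
        intro j
        rw [hinc]
        ext i
        obtain ⟨s, rfl⟩ := e.surjective i
        cases s with
        | inl k =>
          by_cases hjk : k = j
          · subst hjk; simp [jn, eb]
          · have : e (Sum.inl k) ≠ e (Sum.inl j) := fun hh => hjk
              (Sum.inl_injective (e.injective hh))
            simp [jn, eb, hjk, this]
        | inr k =>
          have : e (Sum.inr k) ≠ e (Sum.inl j) := fun hh => by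
            have := e.injective hh
            simp at this
          simp [jn, eb, this]
      simp only [pullb_apply, ContinuousLinearMap.fderiv, hb, hinc u]
    show sd (pullb G (inc κ) u) * _ ≤ _
    rw [hsd]
    exact key

end Pool.Agent.MVS.H26
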