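import Pool.Agent.Helper10_MVS.FLL
import Pool.Agent.Helper10_MVS.SPD
import Pool.Agent.Helper14_MVS.SDF
import Pool.Agent.Helper15_MVS.LIN
import Pool.Agent.Helper19_MVS.GBI
import Pool.Agent.Helper20_MVS.CCT
import Pool.Agent.Helper23_MVS.BR3
import Pool.Agent.Helper23_MVS.GBW
import Pool.Agent.Helper24_MVS.GBC
import Pool.Agent.Helper25_MVS.EXA
import Pool.Agent.Helper26_MVS.BR2
import Pool.Agent.Helper26_MVS.COI
import Pool.Agent.Helper26_MVS.FIN
import Pool.Agent.Helper26_MVS.IN2
import Pool.Agent.Helper26_MVS.MAI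
import Pool.Agent.Helper27_MVS.INV
import Pool.Agent.Helper28_MVS.BR4
import Pool.Agent.Helper28_MVS.CTN
import Pool.Agent.Helper38_MVS.GBF
import Pool.Agent.Helper38_MVS.RND
import Pool.Agent.Helper39_MVS.EQV
import Pool.Agent.Helper39_MVS.NEX
import Pool.Agent.Helper3_MVS.DET
import Pool.Agent.Helper3_MVS.HEX
import Pool.Agent.Helper45_MVS.FLA
import Pool.Agent.Helper45_MVS.GAU
import Pool.Agent.Helper60_MVS.MCO
import Pool.Agent.Helper60_MVS.PAR
import Pool.Agent.Helper60_MVS.UNQ
import Pool.Agent.Helper65_MVS.FLC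
import Pool.Agent.Helper67_MVS.JEQ
import Pool.Agent.Helper67_MVS.NOZ
import Pool.Agent.Helper6_MVS.COB
import Pool.Agent.Helper6_MVS.POL
import Pool.Agent.Helper76_MVS.COA
import Pool.Agent.Helper77_MVS.FRM
import Pool.Agent.Helper81_MVS.FLB
import Pool.Agent.Helper82_MVS.CHV
import Pool.Agent.Helper86_MVS.EXB
import Pool.Agent.Helper86_MVS.ROT
import Pool.Agent.Helper88_MVS.Res
import Pool.Agent.Helper94_MVS.BND
import Pool.Agent.Helper94_MVS.BR1
import Pool.Agent.Helper96_MVS.IN4

/-!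
# MVS: assembly of all lemmas (MP_33f2b9_gt)
-/

namespace Pool.Agent.MVS.H26

open Pool.Agent.MVS

theorem rot_ : RotStatement :=
  H86.rot

theorem eqv_ : EqvStatement :=
  H39.eqv rot_

theorem mco_ : McoStatement :=
  H60.mco

theorem jeq_ : JeqStatement :=
  H67.jeq

theorem unq_ : UnqStatement :=
  H60.unq

theorem spd_ : SpdStatement :=
  H10.spd mco_

theorem exa_ : ExaStatement :=
  H25.exa

theorem exb_ : ExbStatement :=
  H86.exb exa_ unq_

theorem hex_ : HexStatement :=
  H3.hex unq_ spd_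

theorem frm_ : FrmStatement :=
  H77.frm

theorem nex_ : NexStatement :=
  H39.nex rot_ hex_

theorem ctn_ : CtnStatement :=
  H28.ctn

theorem cct_ : CctStatement :=
  H20.cct

theorem gau_ : GauStatement :=
  H45.gau rot_ eqv_ mco_

theorem fla_ : FlaStatement :=
  H45.fla rot_ mco_ jeq_

theorem fll_ : FllStatement :=
  H10.fll

theorem flb_ : FlbStatement :=
  H81.flb rot_ eqv_ gau_

theorem flc_ : FlcStatement :=
  H65.flc fla_ flb_ rot_

theorem bnd_ : BndStatement :=
  H94.bnd fla_ flb_ ctn_ cct_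

theorem inv_ : InvStatement :=
  H27.inv rot_ bnd_

theorem noz_ : NozStatement :=
  H67.noz rot_ eqv_ mco_ jeq_ cct_ flb_

theorem coa_ : CoaStatement :=
  H76.coa rot_ inv_ noz_ gau_

theorem cob_ : CobStatement :=
  H6.cob unq_ noz_ rot_

theorem coi_ : CoiStatement :=
  H26.coi coa_ cob_

theorem sdf_ : SdfStatement :=
  H14.sdf

theorem lin_ : LinStatement :=
  H15.lin

theorem det_ : DetStatement :=
  H3.det rot_ fla_ fll_ flb_ flc_ bnd_ lin_ sdf_ inv_

theorem chv_ : ChvStatement :=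
  H82.chv sdf_ coi_

theorem pol_ : PolStatement :=
  H6.pol

theorem in4_ : In4Statement :=
  H96.in4 eqv_ pol_

theorem in2_ : In2Statement :=
  H26.in2 eqv_ pol_

theorem res_ : ResStatement :=
  H88.res rot_ eqv_

theorem gbf_ : GbfStatement :=
  H38.gbf

theorem gbw_ : GbwStatement :=
  H23.gbw

theorem gbc_ : GbcStatement :=
  H24.gbc sdf_

theorem gbi_ : GbiStatement :=
  H19.gbi

theorem gb2_ : Gb2Statement :=
  H26.gb2 sdf_ gbf_ gbw_ gbc_ gbi_

theorem mai_ : MaiStatement :=
  H26.mai exb_ frm_ nex_ chv_ det_ in4_ in2_ res_ gb2_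

theorem par_ : ParStatement :=
  H60.par

theorem br1_ : Br1Statement :=
  H94.br1 par_

theorem br2_ : Br2Statement :=
  H26.br2 par_

theorem br3_ : Br3Statement :=
  H23.br3

theorem br4_ : Br4Statement :=
  H28.br4

theorem rnd_ : RndStatement :=
  H38.rnd

theorem fin_ : FinStatement :=
  H26.fin mai_ br1_ br2_ br3_ br4_ rnd_

/-- the final statement, without hypotheses -/
theorem final : FinStatement := fin_

end Pool.Agent.MVS.H26
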