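import Pool.Agent.MVS.Stmts
import Pool.Agent.Helper86_MVS.ROT
import Pool.Agent.Helper3_MVS.DET

noncomputable section

open scoped ContDiff Topology RealInnerProductSpace
open Set MeasureTheory

namespace Pool.Agent.MVS.H26

open Pool.Agent.RF Pool.Agent.MVS

variable {ι1 ι2 : Type} [Fintype ι1] [Fintype ι2]

/-- joining coordinates -/
def jn (e : ι1 ⊕ ι2 ≃ Fin 5) (p : E ι1 × E ι2) : E5 :=
  WithLp.toLp 2 (fun i => Sum.elim (fun j => p.1 j) (fun j => p.2 j) (e.symm i))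

theorem jn_mp (e : ι1 ⊕ ι2 ≃ Fin 5) : MeasurePreserving (jn e) (volume.prod volume) volume := by
  have h1 : MeasurePreserving (Prod.map (WithLp.ofLp : E ι1 → (ι1 → ℝ))
      (WithLp.ofLp : E ι2 → (ι2 → ℝ))) (volume.prod volume) (volume.prod volume) :=
    (PiLp.volume_preserving_ofLp ι1).prod (PiLp.volume_preserving_ofLp ι2)
  have h2 := (volume_measurePreserving_sumPiEquivProdPi_symm (fun _ : ι1 ⊕ ι2 => ℝ))
  have h3 := volume_measurePreserving_piCongrLeft (fun _ : Fin 5 => ℝ) e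
  have h4 := PiLp.volume_preserving_toLp (Fin 5)
  have h5 := h4.comp (h3.comp (h2.comp h1))
  have h6 : jn e = (fun p => (WithLp.toLp 2 : (Fin 5 → ℝ) → E5)
      ((MeasurableEquiv.piCongrLeft (fun _ : Fin 5 => ℝ) e)
        ((MeasurableEquiv.sumPiEquivProdPi (fun _ : ι1 ⊕ ι2 => ℝ)).symm
          (Prod.map (WithLp.ofLp : E ι1 → (ι1 → ℝ)) (WithLp.ofLp : E ι2 → (ι2 → ℝ)) p)))) := by
    funext p
    ext i
    obtain ⟨s, rfl⟩ := e.surjective i
    simp only [jn, Equiv.symm_apply_apply, MeasurableEquiv.coe_piCongrLeft]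
    rw [Equiv.piCongrLeft_apply_apply]
    cases s <;> rfl
  rw [h6]
  exact h5

theorem jn_emb (e : ι1 ⊕ ι2 ≃ Fin 5) : MeasurableEmbedding (jn e) := by
  have h6 : jn e = (fun p => (MeasurableEquiv.toLp 2 (Fin 5 → ℝ))
      ((MeasurableEquiv.piCongrLeft (fun _ : Fin 5 => ℝ) e)
        ((MeasurableEquiv.sumPiEquivProdPi (fun _ : ι1 ⊕ ι2 => ℝ)).symm
          (MeasurableEquiv.prodCongr (MeasurableEquiv.toLp 2 (ι1 → ℝ)).symm
            (MeasurableEquiv.toLp 2 (ι2 → ℝ)).symm p)))) := by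
    funext p
    ext i
    obtain ⟨s, rfl⟩ := e.surjective i
    simp only [jn, Equiv.symm_apply_apply, MeasurableEquiv.coe_piCongrLeft]
    have := Equiv.piCongrLeft_apply_apply (fun _ : Fin 5 => ℝ) e
      ((MeasurableEquiv.sumPiEquivProdPi (fun _ : ι1 ⊕ ι2 => ℝ)).symm
          (MeasurableEquiv.prodCongr (MeasurableEquiv.toLp 2 (ι1 → ℝ)).symm
            (MeasurableEquiv.toLp 2 (ι2 → ℝ)).symm p)) s
    refine Eq.trans ?_ this.symm
    cases s <;> rfl
  rw [h6]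
  exact (MeasurableEquiv.measurableEmbedding _).comp ((MeasurableEquiv.measurableEmbedding _).comp
    ((MeasurableEquiv.measurableEmbedding _).comp (MeasurableEquiv.measurableEmbedding _)))

theorem split_le (e : ι1 ⊕ ι2 ≃ Fin 5) (f : E5 → ℝ) (A : Set (E ι1)) (B : Set (E ι2))
    (W : Set E5) (hW : jn e ⁻¹' W = A ×ˢ B) (hA : MeasurableSet A) (hB : MeasurableSet B)
    (c : E ι1 → ℝ) (j : E ι2 → ℝ) (hf : IntegrableOn f W) (hf0 : ∀ z, 0 ≤ f z)
    (hj : IntegrableOn j B)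
    (hc : ∀ u ∈ A, ∀ᵐ v, v ∈ B → c u * j v ≤ f (jn e (u, v))) :
    (∫ u in A, c u) * (∫ v in B, j v) ≤ ∫ z in W, f z := by
  by_cases hci : IntegrableOn c A
  · have hint : Integrable (fun p : E ι1 × E ι2 => f (jn e p))
        ((volume.restrict A).prod (volume.restrict B)) := by
      rw [Measure.prod_restrict, ← hW]
      exact ((jn_mp e).integrableOn_comp_preimage (jn_emb e)).2 hf
    have e1 : ∫ z in W, f z = ∫ u in A, ∫ v in B, f (jn e (u, v)) := by
      rw [← (jn_mp e).setIntegral_preimage_emb (jn_emb e) f W, hW, ← Measure.prod_restrict,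
        integral_prod _ hint]
    rw [e1, ← integral_mul_const]
    refine integral_mono_ae (hci.mul_const _) hint.integral_prod_left ?_
    filter_upwards [hint.prod_right_ae, ae_restrict_mem hA] with u hu huA
    rw [← integral_const_mul]
    exact integral_mono_ae (hj.const_mul _) hu ((ae_restrict_iff' hB).2 (hc u huA))
  · rw [integral_undef hci, zero_mul]
    exact integral_nonneg hf0

/-- compatibility of `e` with `κ` -/
def Cmp (e : ι1 ⊕ ι2 ≃ Fin 5) (κ : Finset (Fin 5)) : Prop :=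
  (∀ j, e (Sum.inl j) ∉ κ) ∧ ∀ j, e (Sum.inr j) ∈ κ

theorem pN_jn {e : ι1 ⊕ ι2 ≃ Fin 5} {κ : Finset (Fin 5)} (h : Cmp e κ) (p : E ι1 × E ι2) :
    pN κ (jn e p) = jn e (p.1, 0) := by
  ext i
  obtain ⟨s, rfl⟩ := e.surjective i
  rw [H86.pN_apply]
  cases s with
  | inl j => simp [jn, h.1 j]
  | inr j => simp [jn, h.2 j]

theorem pP_jn {e : ι1 ⊕ ι2 ≃ Fin 5} {κ : Finset (Fin 5)} (h : Cmp e κ) (p : E ι1 × E ι2) :
    pP κ (jn e p) = jn e (0, p.2) := by
  ext i
  obtain ⟨s, rfl⟩ := e.surjective i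
  rw [H86.pP_apply]
  cases s with
  | inl j => simp [jn, h.1 j]
  | inr j => simp [jn, h.2 j]

theorem norm_jn_left (e : ι1 ⊕ ι2 ≃ Fin 5) (u : E ι1) : ‖jn e (u, 0)‖ = ‖u‖ := by
  rw [EuclideanSpace.norm_eq, EuclideanSpace.norm_eq, ← e.sum_comp, Fintype.sum_sum_type]
  simp [jn]

theorem norm_jn_right (e : ι1 ⊕ ι2 ≃ Fin 5) (v : E ι2) : ‖jn e (0, v)‖ = ‖v‖ := by
  rw [EuclideanSpace.norm_eq, EuclideanSpace.norm_eq, ← e.sum_comp, Fintype.sum_sum_type]
  simp [jn]

theorem jn_add (e : ι1 ⊕ ι2 ≃ Fin 5) (u : E ι1) (v : E ι2) :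
    jn e (u, v) = jn e (u, 0) + jn e (0, v) := by
  ext i
  obtain ⟨s, rfl⟩ := e.surjective i
  cases s <;> simp [jn]

theorem pre_W {e : ι1 ⊕ ι2 ≃ Fin 5} {κ : Finset (Fin 5)} (h : Cmp e κ) :
    jn e ⁻¹' {z | 1 < ‖pN κ z‖ ∧ ‖pN κ z‖ < Real.exp 1 ∧ ‖pP κ z‖ < Real.pi / 2} =
      slab ι1 ×ˢ {v | ‖v‖ < Real.pi / 2} := by
  ext p
  simp only [mem_preimage, mem_setOf_eq, mem_prod, slab]
  rw [pN_jn h, pP_jn h, norm_jn_left, norm_jn_right]
  tauto

theorem dz_det [DecidableEq ι1] [DecidableEq ι2] (eqv : EqvStatement) {G : E5 → Bil E5}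
    {κ : Finset (Fin 5)} {a b : ℝ} {F : E5 → E5} (hS : Setup G κ a b) (hN : NData G κ F)
    {e : ι1 ⊕ ι2 ≃ Fin 5} (h : Cmp e κ) {σ : E5} (h1 : pP κ σ = 0) (h2 : σ ≠ 0) :
    Dz G F σ = Real.sqrt (Matrix.of fun j k : ι1 =>
      G σ (eb (e (Sum.inl j))) (eb (e (Sum.inl k)))).det := by
  have hP : ∀ j : ι1, pP κ (eb (e (Sum.inl j))) = 0 := fun j => by
    rw [H3.pP_eb, if_neg (h.1 j)]
  have hQ : ∀ j : ι2, pN κ (eb (e (Sum.inr j))) = 0 := fun j => by
    ext i
    rw [H86.pN_apply]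
    by_cases hi : i ∈ κ
    · simp [hi]
    · have : i ≠ e (Sum.inr j) := fun hh => hi (hh ▸ h.2 j)
      simp [hi, eb, this]
  have key : (gm (pullb G F σ)).submatrix e e = Matrix.fromBlocks
      (Matrix.of fun j k : ι1 => G σ (eb (e (Sum.inl j))) (eb (e (Sum.inl k)))) 0
      (Matrix.of fun (j : ι2) (k : ι1) => (gm (pullb G F σ)) (e (Sum.inr j)) (e (Sum.inl k))) 1 := by
    ext s t
    cases s with
    | inl j =>
      cases t with
      | inl k =>
        simp only [Matrix.submatrix_apply, Matrix.fromBlocks_apply₁₁, Matrix.of_apply, gm,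
          pullb_apply, hN.base σ h1 h2, hN.dN σ h1 h2 _ (hP j), hN.dN σ h1 h2 _ (hP k)]
      | inr k =>
        simp only [Matrix.submatrix_apply, Matrix.fromBlocks_apply₁₂, Matrix.of_apply, gm,
          pullb_apply, hN.base σ h1 h2, hN.dN σ h1 h2 _ (hP j), Matrix.zero_apply]
        exact (eqv G κ a b hS).2.1 σ h1 h2 _ _ (hP j) (hN.dP σ h1 h2 _ (hQ k))
    | inr j =>
      cases t with
      | inl k =>
        simp only [Matrix.submatrix_apply, Matrix.fromBlocks_apply₂₁, Matrix.of_apply]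
      | inr k =>
        simp only [Matrix.submatrix_apply, Matrix.fromBlocks_apply₂₂, Matrix.of_apply, gm,
          pullb_apply, hN.base σ h1 h2, hN.iso σ h1 h2 _ _ (hQ j) (hQ k)]
        simp only [eb, EuclideanSpace.inner_single_left, Matrix.one_apply]
        by_cases hjk : j = k
        · subst hjk; simp
        · have : e (Sum.inr j) ≠ e (Sum.inr k) := fun hh => hjk (by
            have := e.injective hh
            exact Sum.inr_injective this)
          simp [hjk, this]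
  unfold Dz sd
  rw [← Matrix.det_submatrix_equiv_self e, key, Matrix.det_fromBlocks_zero₁₂, Matrix.det_one,
    mul_one]

end Pool.Agent.MVS.H26
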