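import Pool.Agent.MVS.Stmts
import Pool.Agent.Helper14_MVS.SDF
import Pool.Agent.Helper86_MVS.ROT

noncomputable section

open scoped ContDiff Topology RealInnerProductSpace MatrixOrder Matrix.Norms.L2Operator
open Set MeasureTheory

namespace Pool.Agent.MVS.H26

open Pool.Agent.RF Pool.Agent.MVS

theorem exists_root {A : Matrix (Fin 5) (Fin 5) ℝ} (hA : A.PosDef) :
    ∃ M : Matrix (Fin 5) (Fin 5) ℝ, A = M.transpose * M ∧ IsUnit M.det := by
  obtain ⟨M, hM⟩ := CStarAlgebra.nonneg_iff_eq_star_mul_self.mp hA.posSemidef.nonneg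
  rw [Matrix.star_eq_conjTranspose, Matrix.conjTranspose_eq_transpose_of_trivial] at hM
  refine ⟨M, hM, ?_⟩
  have h1 := hA.det_pos
  rw [hM, Matrix.det_mul, Matrix.det_transpose] at h1
  rw [isUnit_iff_ne_zero]
  intro h0
  rw [h0, zero_mul] at h1
  exact lt_irrefl _ h1

/-- multiplication by a matrix -/
def mm (M : Matrix (Fin 5) (Fin 5) ℝ) (v : E5) : E5 := WithLp.toLp 2 (M.mulVec v)

theorem bil_mm (B : Bil E5) (v w : E5) : B v w = (v : Fin 5 → ℝ) ⬝ᵥ (gm B).mulVec w := by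
  rw [H14.B_expand]
  simp only [dotProduct, Matrix.mulVec, Finset.mul_sum]
  refine Finset.sum_congr rfl fun i _ => Finset.sum_congr rfl fun j _ => ?_
  rw [H14.gm_apply]
  ring

theorem inner_dot (v w : E5) : ⟪v, w⟫ = (v : Fin 5 → ℝ) ⬝ᵥ (w : Fin 5 → ℝ) := by
  rw [H86.inner_sum5]
  rfl

theorem trace_onb (B C : Bil E5) {M : Matrix (Fin 5) (Fin 5) ℝ} (hM : gm B = M.transpose * M)
    (hd : IsUnit M.det) (b : OrthonormalBasis (Fin 5) ℝ E5) :
    ((gm B)⁻¹ * gm C).trace = ∑ i, C (mm M⁻¹ (b i)) (mm M⁻¹ (b i)) := by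
  set P : Matrix (Fin 5) (Fin 5) ℝ := Matrix.of fun j i => b i j with hP
  have hPP : P.transpose * P = 1 := by
    ext i j
    rw [Matrix.mul_apply, Matrix.one_apply]
    have h := orthonormal_iff_ite.1 b.orthonormal i j
    rw [inner_dot] at h
    rw [← h]
    rfl
  have hPP' : P * P.transpose = 1 := mul_eq_one_comm.1 hPP
  have h1 : ∀ i, C (mm M⁻¹ (b i)) (mm M⁻¹ (b i)) =
      (P.transpose * M⁻¹.transpose * gm C * M⁻¹ * P) i i := by
    intro i
    rw [bil_mm]
    have e1 : ((mm M⁻¹ (b i) : E5) : Fin 5 → ℝ) = fun j => (M⁻¹ * P) j i := by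
      funext j
      unfold mm
      simp only [Matrix.mulVec, dotProduct, Matrix.mul_apply, hP, Matrix.of_apply]
    rw [e1]
    have e2 : P.transpose * M⁻¹.transpose * gm C * M⁻¹ * P =
        (M⁻¹ * P).transpose * (gm C * (M⁻¹ * P)) := by
      rw [Matrix.transpose_mul]
      simp only [Matrix.mul_assoc]
    rw [e2, Matrix.mul_apply]
    simp only [dotProduct, Matrix.mulVec, Matrix.transpose_apply]
    rfl
  have h2 : ∑ i, C (mm M⁻¹ (b i)) (mm M⁻¹ (b i)) =
      (P.transpose * M⁻¹.transpose * gm C * M⁻¹ * P).trace := by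
    unfold Matrix.trace
    exact Finset.sum_congr rfl fun i _ => by rw [h1 i]; rfl
  rw [h2, hM, Matrix.mul_inv_rev]
  have e3 : P.transpose * M⁻¹.transpose * gm C * M⁻¹ * P =
      P.transpose * (M⁻¹.transpose * gm C * M⁻¹ * P) := by
    simp only [Matrix.mul_assoc]
  have e4 : M⁻¹.transpose * gm C * M⁻¹ * P * P.transpose = M⁻¹.transpose * gm C * M⁻¹ := by
    rw [Matrix.mul_assoc _ P, hPP', Matrix.mul_one]
  have e5 : (P.transpose * (M⁻¹.transpose * gm C * M⁻¹ * P)).trace =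
      (M⁻¹.transpose * gm C * M⁻¹).trace := by
    rw [Matrix.trace_mul_comm, e4]
  rw [e3, e5, Matrix.trace_mul_comm (M⁻¹.transpose * gm C), ← Matrix.mul_assoc,
    Matrix.transpose_nonsing_inv]

/-- multiplication by a matrix, as a linear map -/
def ml (M : Matrix (Fin 5) (Fin 5) ℝ) : E5 →ₗ[ℝ] E5 where
  toFun := mm M
  map_add' v w := by
    unfold mm
    rw [WithLp.ofLp_add, Matrix.mulVec_add, WithLp.toLp_add]
  map_smul' c v := by
    unfold mm
    rw [WithLp.ofLp_smul, Matrix.mulVec_smul, WithLp.toLp_smul]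
    rfl

theorem mm_inv {M : Matrix (Fin 5) (Fin 5) ℝ} (hd : IsUnit M.det) (v : E5) :
    mm M⁻¹ (mm M v) = v := by
  unfold mm
  rw [Matrix.mulVec_mulVec, Matrix.nonsing_inv_mul _ hd, Matrix.one_mulVec]

theorem mm_inv' {M : Matrix (Fin 5) (Fin 5) ℝ} (hd : IsUnit M.det) (v : E5) :
    mm M (mm M⁻¹ v) = v := by
  unfold mm
  rw [Matrix.mulVec_mulVec, Matrix.mul_nonsing_inv _ hd, Matrix.one_mulVec]

theorem inner_mm {B : Bil E5} {M : Matrix (Fin 5) (Fin 5) ℝ} (hM : gm B = M.transpose * M)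
    (v w : E5) : ⟪mm M v, mm M w⟫ = B v w := by
  rw [inner_dot, bil_mm, hM]
  unfold mm
  show (M.mulVec v) ⬝ᵥ (M.mulVec w) = _
  rw [← Matrix.mulVec_mulVec, Matrix.dotProduct_mulVec (v : Fin 5 → ℝ), Matrix.vecMul_transpose]

/-- the rotated subspace -/
def Ps (κ : Finset (Fin 5)) : Submodule ℝ E5 := LinearMap.ker (pN κ : E5 →ₗ[ℝ] E5)

theorem finrank_Ps (κ : Finset (Fin 5)) : Module.finrank ℝ (Ps κ) = κ.card := by
  have hli : LinearIndependent ℝ (fun i : κ => (eb (i : Fin 5) : E5)) := by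
    have h := (EuclideanSpace.basisFun (Fin 5) ℝ).orthonormal.linearIndependent
    have h2 := h.comp (fun i : κ => (i : Fin 5)) Subtype.val_injective
    have e : (fun i : κ => (eb (i : Fin 5) : E5)) =
        (EuclideanSpace.basisFun (Fin 5) ℝ : Fin 5 → E5) ∘ (fun i : κ => (i : Fin 5)) := by
      funext i
      simp [eb]
    rw [e]
    exact h2
  have hspan : Ps κ = Submodule.span ℝ (range (fun i : κ => (eb (i : Fin 5) : E5))) := by
    apply le_antisymm
    · intro w hw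
      have hw0 : pN κ w = 0 := hw
      have e : w = ∑ i, w i • (eb i : E5) := H14.eb_sum w
      rw [e]
      refine Submodule.sum_mem _ fun i _ => ?_
      by_cases hi : i ∈ κ
      · exact Submodule.smul_mem _ _ (Submodule.subset_span ⟨⟨i, hi⟩, rfl⟩)
      · have : w i = 0 := by
          have h3 := congrArg (fun u : E5 => u i) hw0
          simp only [H86.pN_apply, if_neg hi] at h3
          simpa using h3
        rw [this, zero_smul]
        exact Submodule.zero_mem _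
    · rw [Submodule.span_le]
      rintro _ ⟨⟨i, hi⟩, rfl⟩
      show pN κ (eb i) = 0
      ext j
      rw [H86.pN_apply]
      by_cases hj : j ∈ κ
      · simp [hj]
      · have : j ≠ i := fun h => hj (h ▸ hi)
        simp [hj, eb, this]
  rw [hspan, finrank_span_eq_card hli, Fintype.card_coe]

theorem orth_ext {m : ℕ} (hm : m ≤ 3) {v' : Fin 2 ⊕ Fin m → E5} (h : Orthonormal ℝ v') :
    ∃ b : OrthonormalBasis ((Fin 2 ⊕ Fin m) ⊕ Fin (3 - m)) ℝ E5, ∀ i, b (Sum.inl i) = v' i := by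
  have hcard : Module.finrank ℝ E5 = Fintype.card ((Fin 2 ⊕ Fin m) ⊕ Fin (3 - m)) := by
    simp only [finrank_euclideanSpace, Fintype.card_sum, Fintype.card_fin]
    omega
  have ho : Orthonormal ℝ ((range Sum.inl : Set ((Fin 2 ⊕ Fin m) ⊕ Fin (3 - m))).domRestrict
      (Sum.elim v' 0)) := by
    rw [orthonormal_iff_ite]
    rintro ⟨_, a, rfl⟩ ⟨_, b, rfl⟩
    have := orthonormal_iff_ite.1 h a b
    simp only [Set.domRestrict_apply, Sum.elim_inl, Subtype.mk.injEq, Sum.inl.injEq]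
    exact this
  obtain ⟨b, hb⟩ := ho.exists_orthonormalBasis_extension_of_card_eq hcard
  exact ⟨b, fun i => by rw [hb _ ⟨i, rfl⟩]; rfl⟩

theorem lin : LinStatement := by
  intro κ B C τ c d σ y hκ h1 h2 h3 h4 hBs hBp hCs hy hσ hCy hCσ hd hc
  obtain ⟨M, hM, hdet⟩ := exists_root (H14.gm_posDef B hBs hBp)
  obtain ⟨-, r2, r3, r4, -⟩ := H86.rot
  have hσN : pN κ σ = σ := by
    have := H86.rot.1 κ σ
    rw [h1, add_zero] at this
    exact this
  have hyP : pP κ y = y := by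
    have := H86.rot.1 κ y
    rw [h3, zero_add] at this
    exact this
  have hPo : ∀ w, pN κ w = 0 → ⟪σ, w⟫ = (0 : ℝ) := by
    intro w hw
    rw [← hσN, r3, hw, inner_zero_right]
  set W : Submodule ℝ E5 := (ℝ ∙ y)ᗮ ⊓ Ps κ with hW
  have hWm : ∀ w ∈ W, pN κ w = 0 ∧ ⟪y, w⟫ = (0 : ℝ) := by
    intro w hw
    exact ⟨hw.2, Submodule.mem_orthogonal_singleton_iff_inner_right.1 hw.1⟩
  have hWd : 1 + Module.finrank ℝ W = κ.card := by
    have hle : (ℝ ∙ y) ≤ Ps κ := by
      rw [Submodule.span_singleton_le_iff_mem]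
      exact h3
    have := Submodule.finrank_add_inf_finrank_orthogonal hle
    rw [finrank_Ps, finrank_span_singleton h4] at this
    exact this
  set W' : Submodule ℝ E5 := W.map (ml M) with hW'
  have hinj : Function.Injective (ml M) := fun v w h => by
    have h' : mm M v = mm M w := h
    rw [← mm_inv hdet v, h', mm_inv hdet]
  have hWd' : Module.finrank ℝ W' = Module.finrank ℝ W :=
    (Submodule.equivMapOfInjective (ml M) hinj W).finrank_eq.symm
  set m := Module.finrank ℝ W' with hm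
  have hm3 : m ≤ 3 := by omega
  have hT : ∀ v w, ⟪mm M v, mm M w⟫ = B v w := inner_mm hM
  have hB1 : 0 < B y y := hBp y h4
  have hB2 : 0 < B σ σ := hBp σ h2
  set ty : E5 := (Real.sqrt (B y y))⁻¹ • mm M y with hty
  set ts : E5 := (Real.sqrt (B σ σ))⁻¹ • mm M σ with hts
  set wb := stdOrthonormalBasis ℝ W' with hwb
  have hwm : ∀ j : Fin m, ∃ w ∈ W, mm M w = (wb j : E5) := fun j => (wb j).2
  have hBys : B y σ = 0 := hy σ (by
    rw [← hyP, ← hσN, real_inner_comm]
    exact r2 κ σ y)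
  have hBsy : B σ y = 0 := by rw [hBs]; exact hBys
  have i11 : ⟪ty, ty⟫ = (1 : ℝ) := by
    rw [hty, inner_smul_left, inner_smul_right, hT]
    simp only [conj_trivial]
    rw [← mul_assoc, ← mul_inv, Real.mul_self_sqrt hB1.le, inv_mul_cancel₀ hB1.ne']
  have i22 : ⟪ts, ts⟫ = (1 : ℝ) := by
    rw [hts, inner_smul_left, inner_smul_right, hT]
    simp only [conj_trivial]
    rw [← mul_assoc, ← mul_inv, Real.mul_self_sqrt hB2.le, inv_mul_cancel₀ hB2.ne']
  have i12 : ⟪ty, ts⟫ = (0 : ℝ) := by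
    rw [hty, hts, inner_smul_left, inner_smul_right, hT, hBys]
    simp
  have i1w : ∀ j : Fin m, ⟪ty, (wb j : E5)⟫ = (0 : ℝ) := by
    intro j
    obtain ⟨w, hw, hw'⟩ := hwm j
    rw [← hw', hty, inner_smul_left, hT, hy w (hWm w hw).2]
    simp
  have i2w : ∀ j : Fin m, ⟪ts, (wb j : E5)⟫ = (0 : ℝ) := by
    intro j
    obtain ⟨w, hw, hw'⟩ := hwm j
    rw [← hw', hts, inner_smul_left, hT, hσ w (hPo w (hWm w hw).1)]
    simp
  have hww : ∀ i j : Fin m, ⟪(wb i : E5), (wb j : E5)⟫ = if i = j then (1 : ℝ) else 0 := by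
    intro i j
    have := orthonormal_iff_ite.1 wb.orthonormal i j
    rw [← this]
    rfl
  have hov : Orthonormal ℝ (Sum.elim ![ty, ts] (fun j : Fin m => (wb j : E5))) := by
    rw [orthonormal_iff_ite]
    rintro (i | i) (j | j)
    · fin_cases i <;> fin_cases j
      · simpa using i11
      · simpa using i12
      · have : ⟪ts, ty⟫ = (0 : ℝ) := by rw [real_inner_comm]; exact i12
        simpa using this
      · simpa using i22
    · fin_cases i
      · simpa using i1w j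
      · simpa using i2w j
    · fin_cases j
      · have : ⟪(wb i : E5), ty⟫ = (0 : ℝ) := by rw [real_inner_comm]; exact i1w i
        simpa using this
      · have : ⟪(wb i : E5), ts⟫ = (0 : ℝ) := by rw [real_inner_comm]; exact i2w i
        simpa using this
    · simpa using hww i j
  obtain ⟨b, hb⟩ := orth_ext hm3 hov
  have hcard : Fintype.card ((Fin 2 ⊕ Fin m) ⊕ Fin (3 - m)) = 5 := by
    simp only [Fintype.card_sum, Fintype.card_fin]
    omega
  set e := Fintype.equivFinOfCardEq hcard with he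
  have ht := trace_onb B C hM hdet (b.reindex e)
  have hsum : ∑ i, C (mm M⁻¹ ((b.reindex e) i)) (mm M⁻¹ ((b.reindex e) i)) =
      ∑ s, C (mm M⁻¹ (b s)) (mm M⁻¹ (b s)) := by
    rw [← e.sum_comp]
    refine Finset.sum_congr rfl fun s _ => ?_
    rw [OrthonormalBasis.reindex_apply, Equiv.symm_apply_apply]
  rw [ht, hsum, Fintype.sum_sum_type, Fintype.sum_sum_type, Fin.sum_univ_two]
  have t0 : C (mm M⁻¹ (b (Sum.inl (Sum.inl 0)))) (mm M⁻¹ (b (Sum.inl (Sum.inl 0)))) = τ := by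
    rw [hb]
    have e1 : mm M⁻¹ ty = (Real.sqrt (B y y))⁻¹ • y := by
      have : mm M⁻¹ ty = ml M⁻¹ ((Real.sqrt (B y y))⁻¹ • mm M y) := rfl
      rw [this, map_smul]
      show _ • mm M⁻¹ (mm M y) = _
      rw [mm_inv hdet]
    show C (mm M⁻¹ ty) (mm M⁻¹ ty) = τ
    rw [e1, map_smul, map_smul, _root_.smul_apply, hCy]
    simp only [smul_eq_mul]
    have h5 := Real.mul_self_sqrt hB1.le
    have h6 : Real.sqrt (B y y) ≠ 0 := (Real.sqrt_pos.2 hB1).ne'
    field_simp
    rw [sq, h5]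
    try ring
  have t1 : C (mm M⁻¹ (b (Sum.inl (Sum.inl 1)))) (mm M⁻¹ (b (Sum.inl (Sum.inl 1)))) = 0 := by
    rw [hb]
    have e1 : mm M⁻¹ ts = (Real.sqrt (B σ σ))⁻¹ • σ := by
      have : mm M⁻¹ ts = ml M⁻¹ ((Real.sqrt (B σ σ))⁻¹ • mm M σ) := rfl
      rw [this, map_smul]
      show _ • mm M⁻¹ (mm M σ) = _
      rw [mm_inv hdet]
    show C (mm M⁻¹ ts) (mm M⁻¹ ts) = 0
    rw [e1, map_smul, map_smul, _root_.smul_apply, hCσ]
    simp
  have t2 : ((κ.card - 1 : ℕ) : ℝ) * c ≤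
      ∑ j : Fin m, C (mm M⁻¹ (b (Sum.inl (Sum.inr j)))) (mm M⁻¹ (b (Sum.inl (Sum.inr j)))) := by
    have : ((κ.card - 1 : ℕ) : ℝ) * c = ∑ j : Fin m, c := by
      rw [Finset.sum_const, Finset.card_univ, Fintype.card_fin, nsmul_eq_mul]
      congr 2
      omega
    rw [this]
    refine Finset.sum_le_sum fun j _ => ?_
    rw [hb]
    obtain ⟨w, hw, hw'⟩ := hwm j
    show c ≤ C (mm M⁻¹ (wb j : E5)) (mm M⁻¹ (wb j : E5))
    rw [← hw', mm_inv hdet]
    have h5 := hc w (hWm w hw).1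
    have h6 : B w w = 1 := by
      rw [← hT, hw', hww j j, if_pos rfl]
    rw [h6, mul_one] at h5
    exact h5
  have t3 : - (((4 - κ.card : ℕ) : ℝ) * d) ≤
      ∑ j : Fin (3 - m), C (mm M⁻¹ (b (Sum.inr j))) (mm M⁻¹ (b (Sum.inr j))) := by
    have : - (((4 - κ.card : ℕ) : ℝ) * d) = ∑ j : Fin (3 - m), - d := by
      rw [Finset.sum_const, Finset.card_univ, Fintype.card_fin, nsmul_eq_mul, mul_neg]
      congr 3
      omega
    rw [this]
    refine Finset.sum_le_sum fun j _ => ?_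
    have h5 := hd (mm M⁻¹ (b (Sum.inr j)))
    have h6 : B (mm M⁻¹ (b (Sum.inr j))) (mm M⁻¹ (b (Sum.inr j))) = 1 := by
      rw [← hT, mm_inv' hdet, orthonormal_iff_ite.1 b.orthonormal, if_pos rfl]
    rw [h6, mul_one] at h5
    exact h5
  rw [t0, t1]
  linarith

end Pool.Agent.MVS.H26
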