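import Pool.Agent.Helper26_MVS.COI

noncomputable section

open scoped ContDiff Topology RealInnerProductSpace
open Set MeasureTheory

namespace Pool.Agent.MVS.H26

open Pool.Agent.RF Pool.Agent.MVS

theorem mai (hE : ExbStatement) (hFr : FrmStatement) (hN : NexStatement) (hC : ChvStatement)
    (hD : DetStatement) (h4 : In4Statement) (h2 : In2Statement) (hR : ResStatement)
    (hG : Gb2Statement) : MaiStatement := by
  intro G κ a b hS
  obtain ⟨ex, hex⟩ := hE G hS.cyl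
  obtain ⟨Q, hQ⟩ := hFr G κ a b hS
  obtain ⟨F, hF⟩ := hN G κ a b ex Q hS hex hQ
  obtain ⟨c1, c2⟩ := hC G κ a b F hS hF
  have hd := hD G κ a b F hS hF
  have two : (κ = {0, 1} ∨ κ = {2, 3}) → κ.card = 2 → 8 * Real.pi ^ 2 / 3 ≤
      ∫ x in slab (Fin 5), sd (G x) := by
    intro hκ hcard
    have hd' : ∀ σ y, pP κ σ = 0 → σ ≠ 0 → pN κ y = 0 → 0 < ‖y‖ → ‖y‖ < Real.pi / 2 →
        Dz G F σ * (Real.sin ‖y‖ / ‖y‖ * Real.cos ‖y‖ ^ 2) ≤ Dz G F (σ + y) := by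
      intro σ y g1 g2 g3 g4 g5
      have := hd σ y g1 g2 g3 g4 g5
      rwa [jac, hcard, show 2 - 1 = 1 from rfl, show 4 - 2 = 2 from rfl, pow_one] at this
    have e1 := h2 G κ a b F hκ hS hF c1 hd'
    obtain ⟨r1, r2⟩ := hR G κ a b hκ hS
    have e2 := hG _ r1 r2
    have hpi := Real.pi_pos
    calc 8 * Real.pi ^ 2 / 3 = 2 * Real.pi / 3 * (4 * Real.pi) := by ring
      _ ≤ 2 * Real.pi / 3 * ∫ x in slab (Fin 3), sd (pullb G (inc κ) x) := by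
          gcongr
      _ ≤ _ := e1
      _ ≤ _ := c2
  rcases hS.cs with ⟨hκ, ha, hb⟩ | ⟨hκ, ha, hb⟩ | ⟨hκ, ha, hb⟩
  · subst hκ
    have hd' : ∀ σ y, pP {0, 1, 2, 3} σ = 0 → σ ≠ 0 → pN {0, 1, 2, 3} y = 0 → 0 < ‖y‖ →
        ‖y‖ < Real.pi / 2 → Dz G F σ * (Real.sin ‖y‖ / ‖y‖) ^ 3 ≤ Dz G F (σ + y) := by
      intro σ y g1 g2 g3 g4 g5
      have := hd σ y g1 g2 g3 g4 g5
      have hcard : ({0, 1, 2, 3} : Finset (Fin 5)).card = 4 := by decide
      rwa [jac, hcard, show 4 - 1 = 3 from rfl, show 4 - 4 = 0 from rfl, pow_zero,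
        mul_one] at this
    exact (h4 G a b F hS hF c1 hd').trans c2
  · exact two (Or.inl hκ) (by rw [hκ]; decide)
  · exact two (Or.inr hκ) (by rw [hκ]; decide)

end Pool.Agent.MVS.H26
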